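import Mathlib
import Pool.Agent.Collatz3.LTMain
import Pool.Agent.Collatz3.LTUp
import Pool.Agent.Collatz3.LTLow

set_option autoImplicit false

namespace Pool.Agent.Results.MP_f7abf1_nt.LowerTail

/-- The exact exponent of the number of integers with a small total stopping time, for every target
`a` prime to 3 and for the whole range of small stopping times. -/
theorem result (a : ℕ) (ha : 0 < a) (h3 : ¬ 3 ∣ a) (c : ℝ) (hc : 1 / Real.log 2 < c)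
    (hc' : c < ((1 / 2) * Real.log (4 / 3))⁻¹) :
    (0 < 1 - c * (⨆ θ : ℝ, (θ * (1 / c) - Real.log ((1 / 2) * ((2 : ℝ) ^ θ + (2 / 3 : ℝ) ^ θ)))) ∧
      1 - c * (⨆ θ : ℝ, (θ * (1 / c) - Real.log ((1 / 2) * ((2 : ℝ) ^ θ + (2 / 3 : ℝ) ^ θ)))) < 1) ∧
    ∀ ε : ℝ, ε > 0 → ∀ᶠ x : ℕ in Filter.atTop,
      (x : ℝ) ^ (1 - c * (⨆ θ : ℝ, (θ * (1 / c) -
          Real.log ((1 / 2) * ((2 : ℝ) ^ θ + (2 / 3 : ℝ) ^ θ)))) - ε) ≤
        ({n : ℕ | 1 ≤ n ∧ n ≤ x ∧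
          ∃ k : ℕ, (fun m : ℕ => if m % 2 = 0 then m / 2 else (3 * m + 1) / 2)^[k] n = a ∧
            (k : ℝ) ≤ c * Real.log (n : ℝ)}.ncard : ℝ) ∧
      ({n : ℕ | 1 ≤ n ∧ n ≤ x ∧
          ∃ k : ℕ, (fun m : ℕ => if m % 2 = 0 then m / 2 else (3 * m + 1) / 2)^[k] n = a ∧
            (k : ℝ) ≤ c * Real.log (n : ℝ)}.ncard : ℝ) ≤
        (x : ℝ) ^ (1 - c * (⨆ θ : ℝ, (θ * (1 / c) -
          Real.log ((1 / 2) * ((2 : ℝ) ^ θ + (2 / 3 : ℝ) ^ θ)))) + ε) := by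
  refine ⟨?_, fun ε hε => ?_⟩
  · obtain ⟨ρ, r0, r1, hc0, r2, r3⟩ := Pool.Agent.Collatz3.LT.params hc hc'
    have hpos : 0 < Real.log 2 - ρ * Real.log 3 := by rw [← r2]; positivity
    have h1 := Pool.Agent.Collatz3.Leg.exponent_eq r0 (by linarith) r2 hpos
    change 0 < 1 - c * Pool.Agent.Collatz3.Leg.gL (1 / c) ∧
      1 - c * Pool.Agent.Collatz3.Leg.gL (1 / c) < 1
    rw [h1]
    have h2 := Pool.Agent.Collatz3.LT.lt_binEntropy r0 r1
    have h4 : Real.binEntropy ρ < Real.log 2 := by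
      rw [Real.binEntropy_lt_log_two]
      intro h
      rw [h] at r1
      norm_num at r1
    exact ⟨div_pos (by linarith) hpos, by rw [div_lt_one hpos]; linarith⟩
  · have h1 := Pool.Agent.Collatz3.LT.lower Pool.Agent.Collatz3.LT.theoremS ha h3 hc hc' hε
    have h2 := Pool.Agent.Collatz3.LT.upper Pool.Agent.Collatz3.LT.theoremS ha hc hc' hε
    filter_upwards [h1, h2] with x hx1 hx2
    exact ⟨hx1, hx2⟩

end Pool.Agent.Results.MP_f7abf1_nt.LowerTail
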