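import Mathlib
import Pool.Agent.Collatz3.FWFin

set_option autoImplicit false

namespace Pool.Agent.Results.MP_f7abf1_nt.PassageTimes

open Filter Topology

/-- The time in which almost all 3x+1 orbits reach a bounded interval, in natural density,
with a rate. -/
theorem result (θ : ℝ) (h1 : 1 / 2 < θ) (h2 : θ < 1) :
    ∃ M₀ : ℝ, 1 < M₀ ∧ ∀ M : ℝ, M₀ ≤ M → ∀ x : ℕ, 1 ≤ x →
      ({n : ℕ | 1 ≤ n ∧ n ≤ x ∧ ∀ k : ℕ,
        (k : ℝ) ≤ ((1 / 2) * Real.log (4 / 3))⁻¹ * Real.log (x : ℝ) + Real.log (x : ℝ) ^ θ →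
        M < (((fun m : ℕ => if m % 2 = 0 then m / 2 else (3 * m + 1) / 2)^[k] n : ℕ) : ℝ)}.ncard
        : ℝ) ≤ 2 * x / Real.log M ^ 5 := by
  have hT : (fun m : ℕ => if m % 2 = 0 then m / 2 else (3 * m + 1) / 2) =
    Pool.Agent.Collatz3.FW.Tn := rfl
  rw [hT]
  exact (Pool.Agent.Collatz3.FW.passage_times θ h1 h2).1

end Pool.Agent.Results.MP_f7abf1_nt.PassageTimes
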