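import Mathlib
import Pool.Agent.Helper15.PT.Low

set_option autoImplicit false

namespace Pool.Agent.Results.MP_f7abf1_nt.PrimeTimes

open Filter ProbabilityTheory

/-- The `3x+1` function. -/
def T (n : ℕ) : ℕ := if n % 2 = 0 then n / 2 else (3 * n + 1) / 2

/-- `k = τ_F(n)`: the least `k ≥ 0` with `T^(k)(n) ∈ F`; there is no such `k` if `τ_F(n) = ∞`. -/
def IsTau (F : Finset ℕ) (n k : ℕ) : Prop := T^[k] n ∈ F ∧ ∀ j < k, T^[j] n ∉ F

/-- `γ₁ = 2 / log (4/3)`. -/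
noncomputable def γ₁ : ℝ := 2 / Real.log (4 / 3)

/-- `V = 2 (log 3)² / (log (4/3))³`. -/
noncomputable def V : ℝ := 2 * Real.log 3 ^ 2 / Real.log (4 / 3) ^ 3

/-- The number of primes `p ≤ x` with the property `S`. -/
noncomputable def count (S : ℕ → Prop) (x : ℝ) : ℝ :=
  (Set.ncard {p : ℕ | p.Prime ∧ (p : ℝ) ≤ x ∧ S p} : ℝ)

/-- **Passage times of primes.** There are absolute constants `c, C > 0` such that:
1. for all `ε > 0` there are `0 < κ < K` such that for all `a ≥ 1` not divisible by `3` and all large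
`x` at least `(c / a) x / log x` primes `p ≤ x` have `τ_a(p) < ∞`, and all of them but at most
`ε x / log x` satisfy `κ √(log p) < |τ_a(p) - γ₁ log p| < K √(log p)`;
2. for all finite `F` and all finite unions `J` of pairwise disjoint half open intervals, for all
large `x` at most `C N(J)^(1/4) x / log x` primes `p ≤ x` have `τ_F(p) < ∞` and
`(τ_F(p) - γ₁ log p) / √(V log p) ∈ J`, `N` the standard normal law;
3. for all `M ≥ 1`, `x ≥ 2` at most `C M^(-c) x / log x` primes `p ≤ x` have no iterate `≤ M` within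
`7 log x + C log M` steps. -/
theorem result : ∃ c C : ℝ, 0 < c ∧ 0 < C ∧
    (∀ ε : ℝ, 0 < ε → ∃ κ K : ℝ, 0 < κ ∧ κ < K ∧ ∀ a : ℕ, 0 < a → ¬ 3 ∣ a → ∀ᶠ x : ℝ in atTop,
      c / a * (x / Real.log x) ≤ count (fun p => ∃ k, IsTau {a} p k) x ∧
      count (fun p => ∃ k, IsTau {a} p k ∧
        ¬ (κ * √(Real.log p) < |(k : ℝ) - γ₁ * Real.log p| ∧
          |(k : ℝ) - γ₁ * Real.log p| < K * √(Real.log p))) x ≤ ε * (x / Real.log x)) ∧
    (∀ (F : Finset ℕ) (m : ℕ) (J : Fin m → Set ℝ),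
      (∀ i, (∃ y y' : ℝ, y < y' ∧ J i = Set.Ioc y y') ∨ (∃ y : ℝ, J i = Set.Iic y) ∨
        ∃ y : ℝ, J i = Set.Ioi y) → (∀ i j, i ≠ j → Disjoint (J i) (J j)) → ∀ᶠ x : ℝ in atTop,
      count (fun p => ∃ k, IsTau F p k ∧
          ((k : ℝ) - γ₁ * Real.log p) / √(V * Real.log p) ∈ ⋃ i, J i) x ≤
        C * (gaussianReal 0 1).real (⋃ i, J i) ^ (1 / 4 : ℝ) * (x / Real.log x)) ∧
    (∀ M : ℝ, 1 ≤ M → ∀ x : ℝ, 2 ≤ x →
      count (fun p => ∀ k : ℕ, (k : ℝ) ≤ 7 * Real.log x + C * Real.log M → M < (T^[k] p : ℕ)) x ≤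
        C * M ^ (-c) * (x / Real.log x)) := by
  obtain ⟨c₁, hc₁, hlow⟩ := Pool.Agent.Helper15.PT.low
  obtain ⟨c₂, C₂, hc₂, hC₂, hrate⟩ := Pool.Agent.Helper15.PT.rate
  obtain ⟨C₁, hC₁, -, hlaw⟩ := Pool.Agent.Helper15.PT.laws
  refine ⟨min c₁ c₂, max C₁ C₂, lt_min hc₁ hc₂, lt_max_of_lt_left hC₁, ?_, ?_, ?_⟩
  · intro ε hε
    obtain ⟨κ, K, h1, h2, h3⟩ := Pool.Agent.Helper15.PT.order hε
    refine ⟨κ, K, h1, h2, fun a ha h => ?_⟩
    filter_upwards [hlow a ha h, h3 {a}, eventually_gt_atTop 1] with x g1 g2 hx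
    refine ⟨?_, g2⟩
    have hxl : 0 < x / Real.log x := div_pos (by linarith) (Real.log_pos hx)
    refine le_trans ?_ g1
    apply mul_le_mul_of_nonneg_right _ hxl.le
    exact div_le_div_of_nonneg_right (min_le_left _ _) (Nat.cast_nonneg a)
  · intro F m J hJ hd
    filter_upwards [hlaw F m J hJ hd, eventually_gt_atTop 1] with x g1 hx
    have hxl : 0 < x / Real.log x := div_pos (by linarith) (Real.log_pos hx)
    refine le_trans g1 ?_
    apply mul_le_mul_of_nonneg_right _ hxl.le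
    apply mul_le_mul_of_nonneg_right (le_max_left _ _)
    exact Real.rpow_nonneg MeasureTheory.measureReal_nonneg _
  · intro M hM x hx
    have hM0 : 0 < M := by linarith
    have hxl : 0 < x / Real.log x := div_pos (by linarith) (Real.log_pos (by linarith))
    have h1 := hrate M hM x hx
    have h2 : count (fun p => ∀ k : ℕ, (k : ℝ) ≤ 7 * Real.log x + max C₁ C₂ * Real.log M →
        M < (T^[k] p : ℕ)) x ≤ C₂ * M ^ (-c₂) * (x / Real.log x) := by
      refine le_trans ?_ h1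
      have hfin : {p : ℕ | p.Prime ∧ (p : ℝ) ≤ x ∧ ∀ k : ℕ,
          (k : ℝ) ≤ 7 * Real.log x + C₂ * Real.log M → M < (T^[k] p : ℕ)}.Finite := by
        refine (Set.finite_Iic ⌊x⌋₊).subset ?_
        rintro p ⟨_, hp, _⟩
        exact Nat.le_floor hp
      have hsub : {p : ℕ | p.Prime ∧ (p : ℝ) ≤ x ∧ ∀ k : ℕ,
          (k : ℝ) ≤ 7 * Real.log x + max C₁ C₂ * Real.log M → M < (T^[k] p : ℕ)} ⊆
          {p : ℕ | p.Prime ∧ (p : ℝ) ≤ x ∧ ∀ k : ℕ,
          (k : ℝ) ≤ 7 * Real.log x + C₂ * Real.log M → M < (T^[k] p : ℕ)} := by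
        rintro p ⟨h3, h4, h5⟩
        refine ⟨h3, h4, fun k hk => h5 k (hk.trans ?_)⟩
        have := mul_le_mul_of_nonneg_right (le_max_right C₁ C₂) (Real.log_nonneg hM)
        linarith
      exact (Nat.cast_le (α := ℝ)).2 (Set.ncard_le_ncard hsub hfin)
    refine h2.trans ?_
    apply mul_le_mul_of_nonneg_right _ hxl.le
    apply mul_le_mul (le_max_right _ _) _ (by positivity) (by positivity)
    exact Real.rpow_le_rpow_of_exponent_le hM (neg_le_neg (min_le_right _ _))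

end Pool.Agent.Results.MP_f7abf1_nt.PrimeTimes
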