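import Mathlib
import Pool.Agent.UTL.Exp

set_option autoImplicit false

namespace Pool.Agent.Results.MP_f7abf1_nt.UpperTail

/-- The `3x+1` function. -/
def T (n : ℕ) : ℕ := if n % 2 = 0 then n / 2 else (3 * n + 1) / 2

/-- `γ₁ = 2 / log (4/3)`. -/
noncomputable def γ₁ : ℝ := 2 / Real.log (4 / 3)

/-- `V = 2 (log 3)² / (log (4/3))³`. -/
noncomputable def V : ℝ := 2 * Real.log 3 ^ 2 / Real.log (4 / 3) ^ 3

/-- The number of the integers `1 ≤ n ≤ x` with `T^(k)(n) > M` for all `0 ≤ k ≤ s`. -/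
noncomputable def N (x M s : ℝ) : ℕ :=
  {n : ℕ | 1 ≤ n ∧ (n : ℝ) ≤ x ∧ ∀ k : ℕ, (k : ℝ) ≤ s → M < (T^[k] n : ℝ)}.ncard

/-- **The upper tail of the passage times of the `3x+1` function.**
1. (moderate deviations, all levels `M`)
2. (lower bound, all levels `M`)
3. (two-sided bound at the level `x ^ δ`). -/
theorem result (ε δ : ℝ) (hε : 0 < ε) (hε1 : ε < 1) (hδ : 0 < δ) (hδ1 : δ < 1) :
    (∃ C c : ℝ, 0 < c ∧ ∀ x M t : ℝ, C ≤ x → Real.exp (C * Real.log (Real.log x) ^ 2) ≤ M →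
      M ≤ x ^ δ → C * Real.log (Real.log x) * √(Real.log (x / M)) ≤ t →
        (N x M (γ₁ * Real.log (x / M) + t) : ℝ) ≤
          x * Real.exp (-(1 - ε) * t ^ 2 / (2 * V * Real.log (x / M))) + x * M ^ (-c)) ∧
    (∃ s₀ : ℝ, 0 < s₀ ∧ ∀ s : ℝ, 0 < s → s ≤ s₀ → ∃ x₀ : ℝ, ∀ x M : ℝ, x₀ ≤ x → 1 ≤ M →
      M ≤ x ^ δ → x * Real.exp (-(1 + ε) * s ^ 2 * Real.log (x / M) / (2 * V)) ≤
        (N x M ((γ₁ + s) * Real.log (x / M)) : ℝ)) ∧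
    ∃ s₀ : ℝ, 0 < s₀ ∧ ∀ s : ℝ, 0 < s → s ≤ s₀ → ∃ x₀ : ℝ, ∀ x : ℝ, x₀ ≤ x →
      x ^ (1 - (1 + ε) * (1 - δ) * s ^ 2 / (2 * V)) ≤
        (N x (x ^ δ) ((γ₁ + s) * ((1 - δ) * Real.log x)) : ℝ) ∧
      (N x (x ^ δ) ((γ₁ + s) * ((1 - δ) * Real.log x)) : ℝ) ≤
        x ^ (1 - (1 - ε) * (1 - δ) * s ^ 2 / (2 * V)) :=
  ⟨Pool.Agent.UTL.main_U ε δ hε hδ hδ1, Pool.Agent.UTL.main_Lower ε δ hε hδ hδ1,
    Pool.Agent.UTL.main_Exp ε δ hε hε1 hδ hδ1⟩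

end Pool.Agent.Results.MP_f7abf1_nt.UpperTail
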